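import Pool.Agent.Lead.LogSp1

open Polynomial

namespace Pool.Agent.Results.MP_f76cdc_ag.Fifteen

open Pool.Agent.Lead.LogSp

/-- The differential `g dz` equals `df / f` for some `f = N / D` in `k(z)ˣ`;
`df / f = (N' / N - D' / D) dz`. -/
def IsLog {k : Type*} [Field k] (g : RatFunc k) : Prop :=
  ∃ N D : k[X], N ≠ 0 ∧ D ≠ 0 ∧
    g = algebraMap k[X] (RatFunc k) (derivative N) / algebraMap k[X] (RatFunc k) N
      - algebraMap k[X] (RatFunc k) (derivative D) / algebraMap k[X] (RatFunc k) D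

/-- `V` (a set of `g` standing for the differentials `g dz`) is a space `L_{m+1,n}`:
it has dimension `n` over `F_p`, and each nonzero `g dz` in it is logarithmic, has no zero at a
finite point, and has order `- deg g - 2 = m - 1` at infinity. -/
def IsL (p : ℕ) (k : Type*) [Field k] [Algebra (ZMod p) k] (m n : ℕ)
    (V : Submodule (ZMod p) (RatFunc k)) : Prop :=
  Module.finrank (ZMod p) V = n ∧
    ∀ g ∈ V, g ≠ 0 → IsLog g ∧ (∀ x : k, g.num.eval x ≠ 0) ∧ -g.intDegree - 2 = (m : ℤ) - 1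

variable {k : Type*} [Field k]

lemma IsLog.neg {g : RatFunc k} (h : IsLog g) : IsLog (-g) := by
  obtain ⟨N, D, hN, hD, rfl⟩ := h
  exact ⟨D, N, hD, hN, by ring⟩

lemma IsLog.add {g h : RatFunc k} (hg : IsLog g) (hh : IsLog h) : IsLog (g + h) := by
  obtain ⟨N, D, hN, hD, rfl⟩ := hg
  obtain ⟨N', D', hN', hD', rfl⟩ := hh
  refine ⟨N * N', D * D', mul_ne_zero hN hN', mul_ne_zero hD hD', ?_⟩
  have a1 := RatFunc.algebraMap_ne_zero hN
  have a2 := RatFunc.algebraMap_ne_zero hD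
  have a3 := RatFunc.algebraMap_ne_zero hN'
  have a4 := RatFunc.algebraMap_ne_zero hD'
  simp only [derivative_mul, map_add, map_mul]
  field_simp
  ring

def Good (g : RatFunc k) : Prop :=
  g ≠ 0 ∧ (∀ x : k, g.num.eval x ≠ 0) ∧ -g.intDegree - 2 = ((14 : ℕ) : ℤ) - 1

lemma good_div (c : k) (hc : c ≠ 0) (Q : k[X]) (hQ : Q ≠ 0) (hd : Q.natDegree = 15) :
    Good (algebraMap k[X] (RatFunc k) (C c) / algebraMap k[X] (RatFunc k) Q) := by
  have a1 := RatFunc.algebraMap_ne_zero hQ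
  have a2 : algebraMap k[X] (RatFunc k) (C c) ≠ 0 :=
    RatFunc.algebraMap_ne_zero (C_ne_zero.mpr hc)
  refine ⟨div_ne_zero a2 a1, fun x hx => ?_, ?_⟩
  · obtain ⟨r, hr⟩ := RatFunc.num_div_dvd (C c) hQ
    have := congrArg (eval x) hr
    rw [eval_mul, hx, eval_C, zero_mul] at this
    exact hc this
  · rw [div_eq_mul_inv, RatFunc.intDegree_mul a2 (inv_ne_zero a1), RatFunc.intDegree_inv,
      RatFunc.intDegree_polynomial, RatFunc.intDegree_polynomial, natDegree_C, hd]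
    norm_num

def Form (g : RatFunc k) : Prop :=
  ∃ (c : k) (Q : k[X]), c ≠ 0 ∧ Q ≠ 0 ∧ Q.natDegree = 15 ∧
    g = algebraMap k[X] (RatFunc k) (C c) / algebraMap k[X] (RatFunc k) Q

lemma Form.good {g : RatFunc k} (h : Form g) : Good g := by
  obtain ⟨c, Q, hc, hQ, hd, rfl⟩ := h
  exact good_div c hc Q hQ hd

lemma Form.neg {g : RatFunc k} (h : Form g) : Form (-g) := by
  obtain ⟨c, Q, hc, hQ, hd, rfl⟩ := h
  exact ⟨-c, Q, neg_ne_zero.mpr hc, hQ, hd, by rw [C_neg, map_neg, neg_div]⟩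

lemma form3 (c : k) (hc : c ≠ 0) (P Q R : k[X]) (hP : P.Monic ∧ P.natDegree = 5)
    (hQ : Q.Monic ∧ Q.natDegree = 5) (hR : R.Monic ∧ R.natDegree = 5) :
    Form (algebraMap k[X] (RatFunc k) (C c) / algebraMap k[X] (RatFunc k) (P * Q * R)) :=
  ⟨c, P * Q * R, hc, ((hP.1.mul hQ.1).mul hR.1).ne_zero, by
    rw [(hP.1.mul hQ.1).natDegree_mul hR.1, hP.1.natDegree_mul hQ.1, hP.2, hQ.2, hR.2], rfl⟩

lemma log_of (c : k) (N D Q : k[X]) (hQ : Q ≠ 0) (h1 : N * D = Q)
    (h2 : derivative N * D - N * derivative D = C c) :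
    IsLog (algebraMap k[X] (RatFunc k) (C c) / algebraMap k[X] (RatFunc k) Q) := by
  subst h1
  have hN := left_ne_zero_of_mul hQ
  have hD := right_ne_zero_of_mul hQ
  refine ⟨N, D, hN, hD, ?_⟩
  have a1 := RatFunc.algebraMap_ne_zero hN
  have a2 := RatFunc.algebraMap_ne_zero hD
  rw [← h2]
  simp only [map_sub, map_mul]
  field_simp

lemma pair [CharP k 3] (i : k) (hi : i ^ 2 + 1 = 0) :
    ∃ u v : RatFunc k, IsLog u ∧ IsLog v ∧ Form u ∧ Form v ∧ Form (u + v) ∧ Form (u - v) := by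
  have h3k : (3 : k) = 0 := CharP.cast_eq_zero k 3
  have hI : (C i : k[X]) ^ 2 + 1 = 0 := by
    rw [← C_pow, ← C_1, ← C_add, hi, C_0]
  have h3 : (3 : k[X]) = 0 := by
    rw [show (3 : k[X]) = C 3 from rfl, h3k, C_0]
  have i0 : i ≠ 0 := by
    rintro rfl
    simp at hi
  have i1 : i + 1 ≠ 0 := by
    intro h
    have : (1 : k) = 0 := by linear_combination (-1 : k) * hi + (i - 1) * h + h3k
    exact one_ne_zero this
  have i2 : i - 1 ≠ 0 := by
    intro h
    have : (1 : k) = 0 := by linear_combination (-1 : k) * hi + (i + 1) * h + h3k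
    exact one_ne_zero this
  have fA := RatFunc.algebraMap_ne_zero (mA i).1.ne_zero
  have fB := RatFunc.algebraMap_ne_zero (mB i).1.ne_zero
  have fS := RatFunc.algebraMap_ne_zero (mS i).1.ne_zero
  have fT := RatFunc.algebraMap_ne_zero (mT i).1.ne_zero
  have q5 := congrArg (algebraMap k[X] (RatFunc k)) (e5 i hI h3)
  have q6 := congrArg (algebraMap k[X] (RatFunc k)) (e6 i hI h3)
  simp only [map_add, map_sub, map_mul, map_one] at q5 q6
  refine ⟨algebraMap k[X] (RatFunc k) (C i) / algebraMap k[X] (RatFunc k) (pB i * pS i * pT i),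
    algebraMap k[X] (RatFunc k) (C 1) / algebraMap k[X] (RatFunc k) (pA i * pS i * pT i),
    log_of i _ _ _ (((mB i).1.mul (mS i).1).mul (mT i).1).ne_zero (e1 i hI h3) (e3 i hI h3),
    log_of 1 _ _ _ (((mA i).1.mul (mS i).1).mul (mT i).1).ne_zero (e2 i hI h3)
      (by rw [C_1]; exact e4 i hI h3),
    form3 i i0 _ _ _ (mB i) (mS i) (mT i), form3 1 one_ne_zero _ _ _ (mA i) (mS i) (mT i),
    ?_, ?_⟩
  · convert form3 (i + 1) i1 _ _ _ (mA i) (mB i) (mT i) using 1
    simp only [map_add, map_mul, map_one]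
    field_simp
    linear_combination q5
  · convert form3 (i - 1) i2 _ _ _ (mA i) (mB i) (mS i) using 1
    simp only [map_sub, map_mul, map_one]
    field_simp
    linear_combination q6

theorem result (k : Type*) [Field k] [IsAlgClosed k] [CharP k 3] [Algebra (ZMod 3) k] :
    ∃ m n : ℕ, 1 ≤ m ∧ 2 ≤ n ∧ (∃ V : Submodule (ZMod 3) (RatFunc k), IsL 3 k m n V) ∧
      ¬ 3 ^ (n - 1) * (3 - 1) ∣ m + 1 := by
  obtain ⟨i, hi⟩ : ∃ i : k, i ^ 2 + 1 = 0 := by
    obtain ⟨i, hi⟩ := IsAlgClosed.exists_pow_nat_eq (-1 : k) (show 0 < 2 by norm_num)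
    exact ⟨i, by rw [hi]; ring⟩
  obtain ⟨u, v, lu, lv, fu, fv, fp, fm⟩ := pair i hi
  have tri : ∀ a : ZMod 3, a = 0 ∨ a = 1 ∨ a = -1 := by decide
  have key : ∀ a b : ZMod 3, (a = 0 ∧ b = 0) ∨
      (IsLog (a • u + b • v) ∧ Form (a • u + b • v)) := by
    intro a b
    rcases tri a with rfl | rfl | rfl <;> rcases tri b with rfl | rfl | rfl <;>
      simp only [zero_smul, one_smul, neg_smul, add_zero, zero_add]
    · exact Or.inl ⟨trivial, trivial⟩
    · exact Or.inr ⟨lv, fv⟩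
    · exact Or.inr ⟨lv.neg, fv.neg⟩
    · exact Or.inr ⟨lu, fu⟩
    · exact Or.inr ⟨lu.add lv, fp⟩
    · exact Or.inr ⟨lu.add lv.neg, by rw [← sub_eq_add_neg]; exact fm⟩
    · exact Or.inr ⟨lu.neg, fu.neg⟩
    · exact Or.inr ⟨lu.neg.add lv, by convert fm.neg using 1; ring⟩
    · exact Or.inr ⟨lu.neg.add lv.neg, by convert fp.neg using 1; ring⟩
  have li : LinearIndependent (ZMod 3) ![u, v] := by
    rw [LinearIndependent.pair_iff]
    intro a b hab
    rcases key a b with h | h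
    · exact h
    · exact absurd hab h.2.good.1
  refine ⟨14, 2, by norm_num, le_rfl, ⟨Submodule.span (ZMod 3) (Set.range ![u, v]), ?_, ?_⟩,
    by norm_num⟩
  · rw [finrank_span_eq_card li, Fintype.card_fin]
  · intro g hg hg0
    obtain ⟨c, rfl⟩ := (Submodule.mem_span_range_iff_exists_fun _).mp hg
    rw [Fin.sum_univ_two] at hg0 ⊢
    simp only [Matrix.cons_val_zero, Matrix.cons_val_one] at hg0 ⊢
    rcases key (c 0) (c 1) with h | h
    · rw [h.1, h.2, zero_smul, zero_smul, add_zero] at hg0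
      exact absurd rfl hg0
    · exact ⟨h.1, h.2.good.2⟩

end Pool.Agent.Results.MP_f76cdc_ag.Fifteen
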